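import Mathlib

/-!
# The poset of retractions is a complete lattice exactly when the underlying poset is one (Q2)

Let `L` be a nonempty poset and order the order-preserving idempotent maps `L → L` (the retractions)
pointwise. They form a complete lattice if and only if `L` is a complete lattice.

Idea. Let `R` be a set of retractions of a complete lattice. Consider the monotone maps `g` above all
members of `R` with `g ∘ g ≤ g`. They are closed under pointwise infima; let `w` be the smallest
one. The map `w ∘ w` is again one of them, because `w (w x) ≥ r (w x) ≥ r (r x) = r x` for `r ∈ R`.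
So `w ≤ w ∘ w ≤ w`, i.e. `w` is a retraction, and it is the least upper bound of `R`.
-/

set_option autoImplicit false

universe u

namespace Pool.Agent.Zk80.Keep.CompleteCase

/-- Least upper bounds of retractions of a complete lattice. -/
theorem exists_lub (L : Type u) [CompleteLattice L]
    (R : Set {r : L → L // Monotone r ∧ ∀ x, r (r x) = r x}) : ∃ t, IsLUB R t := by
  set K : Set (L → L) := {g | Monotone g ∧ (∀ r ∈ R, ∀ x, r.1 x ≤ g x) ∧ ∀ x, g (g x) ≤ g x} with hK
  set w : L → L := fun x => sInf ((fun g : L → L => g x) '' K) with hw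
  have w_le : ∀ g ∈ K, ∀ x, w x ≤ g x := fun g hg x => sInf_le ⟨g, hg, rfl⟩
  have le_w : ∀ y x, (∀ g ∈ K, y ≤ g x) → y ≤ w x := by
    intro y x h
    apply le_sInf
    rintro _ ⟨g, hg, rfl⟩
    exact h g hg
  have w_mono : Monotone w := by
    intro x y hxy
    apply le_w
    intro g hg
    exact (w_le g hg x).trans (hg.1 hxy)
  have w_ge : ∀ r ∈ R, ∀ x, r.1 x ≤ w x := fun r hr x => le_w _ _ fun g hg => hg.2.1 r hr x
  have w_sq : ∀ x, w (w x) ≤ w x := by
    intro x
    apply le_w
    intro g hg
    exact (w_le g hg (w x)).trans ((hg.1 (w_le g hg x)).trans (hg.2.2 x))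
  have ww : (fun x => w (w x)) ∈ K := by
    refine ⟨fun x y hxy => w_mono (w_mono hxy), fun r hr x => ?_, fun x => ?_⟩
    · calc r.1 x = r.1 (r.1 x) := (r.2.2 x).symm
        _ ≤ r.1 (w x) := r.2.1 (w_ge r hr x)
        _ ≤ w (w x) := w_ge r hr _
    · exact (w_sq _).trans (w_mono (w_sq x))
  refine ⟨⟨w, w_mono, fun x => le_antisymm (w_sq x) (w_le _ ww x)⟩, ?_, ?_⟩
  · intro r hr x
    exact w_ge r hr x
  · intro v hv x
    exact w_le v.1 ⟨v.2.1, fun r hr y => hv hr y, fun y => (v.2.2 y).le⟩ x

theorem result (L : Type u) [PartialOrder L] [Nonempty L] :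
    (∀ R : Set {r : L → L // Monotone r ∧ ∀ x, r (r x) = r x},
      (∃ t, IsLUB R t) ∧ ∃ t, IsGLB R t) ↔
    ∀ A : Set L, (∃ a, IsLUB A a) ∧ ∃ a, IsGLB A a := by
  constructor
  · intro h
    have key : ∀ A : Set L, ∃ a, IsLUB A a := by
      intro A
      obtain ⟨t, ht⟩ := (h {r | ∃ a ∈ A, ∀ x, r.1 x = a}).1
      obtain ⟨x0⟩ := ‹Nonempty L›
      refine ⟨t.1 x0, ?_, ?_⟩
      · intro a ha
        exact ht.1 (show (⟨fun _ => a, monotone_const, fun _ => rfl⟩ :
          {r : L → L // Monotone r ∧ ∀ x, r (r x) = r x}) ∈ _ from ⟨a, ha, fun _ => rfl⟩) x0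
      · intro b hb
        have hub : (⟨fun _ => b, monotone_const, fun _ => rfl⟩ :
            {r : L → L // Monotone r ∧ ∀ x, r (r x) = r x}) ∈
            upperBounds {r : {r : L → L // Monotone r ∧ ∀ x, r (r x) = r x} |
              ∃ a ∈ A, ∀ x, r.1 x = a} := by
          rintro r ⟨a, ha, hr⟩ x
          change r.1 x ≤ b
          rw [hr x]
          exact hb ha
        exact ht.2 hub x0
    intro A
    refine ⟨key A, ?_⟩
    obtain ⟨a, ha⟩ := key (lowerBounds A)
    exact ⟨a, isLUB_lowerBounds.1 ha⟩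
  · intro h
    choose s hs using fun A => (h A).1
    let _ : SupSet L := ⟨s⟩
    let _ : CompleteLattice L := completeLatticeOfSup L hs
    intro R
    refine ⟨exists_lub L R, ?_⟩
    obtain ⟨t, ht⟩ := exists_lub L (lowerBounds R)
    exact ⟨t, isLUB_lowerBounds.1 ht⟩

end Pool.Agent.Zk80.Keep.CompleteCase
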