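import Mathlib

/-!
# Every tropical polynomial is a tropical quotient of two products of units

Let `f = max_{a ∈ A} ℓ_a` with `ℓ_a x = c_a + a · x`. For `B ⊆ A` let `f_B = max_{a ∈ B} ℓ_a`.

* If the exponents in `B` are affinely independent, then all `ℓ_a`, `a ∈ B`, agree at some point, so
  the subdivision of `f_B` is trivial.
* Otherwise there are real numbers `w_a`, not all zero, with `∑ w_a = 0`, `∑ w_a a = 0` and
  `∑ w_a c_a ≥ 0`. Let `Q` be the set of all `a` with `w_a < 0`. As `∑ w_a ℓ_a ≥ 0`, at every point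
  some `ℓ_q` with `q ∈ Q` is at most `f_{B \ Q}`, and therefore `∑_{T ⊆ Q} (-1) ^ |T| f_{B \ T} = 0`:
  the summands of `T` and `T ∪ {q}` cancel. So `f_B` is an integral combination of functions
  `f_{B'}` with nonempty `B' ⊊ B`.
-/

set_option autoImplicit false

open Finset

namespace Pool.Agent.Zk80.Keep.RationalFact

/-! ### Definitions -/

/-- The term `c_a + a · x`. -/
def term {n : ℕ} (c : (Fin n → ℕ) → ℝ) (a : Fin n → ℕ) (x : Fin n → ℝ) : ℝ :=
  c a + ∑ i, (a i : ℝ) * x i

/-- `f` is the tropical polynomial `x ↦ max_{a ∈ A} (c_a + a · x)`. -/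
def IsMaxOf {n : ℕ} (A : Finset (Fin n → ℕ)) (c : (Fin n → ℕ) → ℝ) (f : (Fin n → ℝ) → ℝ) : Prop :=
  ∀ x, IsGreatest ((fun a => term c a x) '' (A : Set (Fin n → ℕ))) (f x)

/-- `f` is a tropical polynomial. -/
def IsTropicalPolynomial {n : ℕ} (f : (Fin n → ℝ) → ℝ) : Prop := ∃ A c, IsMaxOf A c f

/-- The exponent `a`, as a point of `ℝⁿ`. -/
def pt {n : ℕ} (a : Fin n → ℕ) : Fin n → ℝ := fun i => (a i : ℝ)

/-- `f` is a unit: a tropical polynomial `max_{a ∈ A} (c_a + a · x)` for which the Newton polytope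
`conv A` is itself a cell of the regular subdivision, i.e. there is a point `x₀` such that `conv A`
is the convex hull of the exponents of the terms which attain the maximum at `x₀`. -/
def IsTropicalUnit {n : ℕ} (f : (Fin n → ℝ) → ℝ) : Prop :=
  ∃ A c, IsMaxOf A c f ∧ ∃ x₀,
    convexHull ℝ (pt '' {a | a ∈ A ∧ term c a x₀ = f x₀}) =
      convexHull ℝ (pt '' (A : Set (Fin n → ℕ)))

/-- `f` is rationally factorizable: there are units `u_1, …, u_p` and `v_1, …, v_q` with
`f ⊙ u_1 ⊙ … ⊙ u_p = v_1 ⊙ … ⊙ v_q`, where the tropical product is the pointwise sum. -/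
def IsRationallyFactorizable {n : ℕ} (f : (Fin n → ℝ) → ℝ) : Prop :=
  ∃ (p q : ℕ) (u : Fin p → (Fin n → ℝ) → ℝ) (v : Fin q → (Fin n → ℝ) → ℝ),
    (∀ i, IsTropicalUnit (u i)) ∧ (∀ j, IsTropicalUnit (v j)) ∧
    ∀ x, f x + ∑ i, u i x = ∑ j, v j x

/-! ### The alternating sum -/

/-- the maximum of the numbers `z a`, `a ∈ B` -/
noncomputable def mx {α : Type} (z : α → ℝ) (B : Finset α) : ℝ :=
  if h : B.Nonempty then B.sup' h z else 0

theorem mx_isGreatest {α : Type} (z : α → ℝ) {B : Finset α} (h : B.Nonempty) :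
    IsGreatest (z '' (B : Set α)) (mx z B) := by
  rw [mx, dif_pos h]
  constructor
  · obtain ⟨b, hb, he⟩ := B.exists_mem_eq_sup' h z
    exact ⟨b, hb, he.symm⟩
  · rintro _ ⟨b, hb, rfl⟩
    exact B.le_sup' z hb

theorem mx_erase {α : Type} [DecidableEq α] (z : α → ℝ) {B C : Finset α} {q : α}
    (hCB : C ⊆ B) (hqC : q ∉ C) (hC : C.Nonempty) (hz : z q ≤ mx z C) :
    mx z (B.erase q) = mx z B := by
  have hCe : C ⊆ B.erase q := fun a ha =>
    Finset.mem_erase.2 ⟨fun h => hqC (h ▸ ha), hCB ha⟩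
  have hB : B.Nonempty := hC.mono hCB
  have hBe : (B.erase q).Nonempty := hC.mono hCe
  have h1 := mx_isGreatest z hB
  have h2 := mx_isGreatest z hBe
  have h3 := mx_isGreatest z hC
  apply le_antisymm
  · exact h1.2 (Set.image_mono (by exact_mod_cast Finset.erase_subset q B) h2.1)
  · obtain ⟨b, hb, he⟩ := h1.1
    rcases eq_or_ne b q with rfl | hbq
    · rw [← he]
      obtain ⟨a, ha, hae⟩ := h3.1
      exact hz.trans (hae ▸ h2.2 ⟨a, hCe ha, rfl⟩)
    · rw [← he]
      exact h2.2 ⟨b, Finset.mem_coe.2 (Finset.mem_erase.2 ⟨hbq, hb⟩), rfl⟩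

theorem alternating {α : Type} [DecidableEq α] (z : α → ℝ) {B Q : Finset α}
    (hne : (B \ Q).Nonempty) (h : ∃ q ∈ Q, z q ≤ mx z (B \ Q)) :
    ∑ T ∈ Q.powerset, (-1 : ℝ) ^ T.card * mx z (B \ T) = 0 := by
  obtain ⟨q, hq, hz⟩ := h
  have hQ : Q = insert q (Q.erase q) := (Finset.insert_erase hq).symm
  rw [hQ, Finset.sum_powerset_insert (Finset.notMem_erase q Q), ← Finset.sum_add_distrib]
  refine Finset.sum_eq_zero fun T hT => ?_
  rw [Finset.mem_powerset] at hT
  have hqT : q ∉ T := fun h => (Finset.mem_erase.1 (hT h)).1 rfl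
  have h1 : B \ insert q T = (B \ T).erase q := by
    ext a
    simp only [Finset.mem_sdiff, Finset.mem_insert, Finset.mem_erase, not_or]
    tauto
  have h2 : mx z (B \ insert q T) = mx z (B \ T) := by
    rw [h1]
    refine mx_erase z (C := B \ Q) ?_ ?_ hne hz
    · exact Finset.sdiff_subset_sdiff (Finset.Subset.refl B) (hT.trans (Finset.erase_subset q Q))
    · intro h
      exact (Finset.mem_sdiff.1 h).2 hq
  rw [h2, Finset.card_insert_of_notMem hqT, pow_succ]
  ring

/-! ### Dependencies -/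

variable {n : ℕ}

theorem sum_term (c : (Fin n → ℕ) → ℝ) (B : Finset (Fin n → ℕ)) (w : (Fin n → ℕ) → ℝ)
    (h1 : ∀ i, ∑ a ∈ B, w a * (a i : ℝ) = 0) (x : Fin n → ℝ) :
    ∑ a ∈ B, w a * term c a x = ∑ a ∈ B, w a * c a := by
  have h : ∑ a ∈ B, w a * ∑ i, (a i : ℝ) * x i = 0 := by
    calc ∑ a ∈ B, w a * ∑ i, (a i : ℝ) * x i = ∑ a ∈ B, ∑ i, (w a * (a i : ℝ)) * x i := by
          refine Finset.sum_congr rfl fun a _ => ?_
          rw [Finset.mul_sum]
          exact Finset.sum_congr rfl fun i _ => by ring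
      _ = ∑ i, (∑ a ∈ B, w a * (a i : ℝ)) * x i := by
          rw [Finset.sum_comm]
          exact Finset.sum_congr rfl fun i _ => by rw [Finset.sum_mul]
      _ = 0 := by simp [h1]
  simp only [term, mul_add, Finset.sum_add_distrib]
  rw [h, add_zero]

/-- The key lemma: for an affinely dependent set of exponents there is a vanishing alternating
sum. -/
theorem key (c : (Fin n → ℕ) → ℝ) (B : Finset (Fin n → ℕ)) (w : (Fin n → ℕ) → ℝ)
    (h0 : ∑ a ∈ B, w a = 0) (h1 : ∀ i, ∑ a ∈ B, w a * (a i : ℝ) = 0)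
    (h2 : 0 ≤ ∑ a ∈ B, w a * c a) (hw : ∃ a ∈ B, w a ≠ 0) :
    ∃ Q ⊆ B, Q.Nonempty ∧ (B \ Q).Nonempty ∧
      ∀ x, ∑ T ∈ Q.powerset, (-1 : ℝ) ^ T.card * mx (fun a => term c a x) (B \ T) = 0 := by
  classical
  set Q := B.filter (fun a => w a < 0) with hQ
  have hneg : Q.Nonempty := by
    by_contra hcon
    rw [Finset.not_nonempty_iff_eq_empty] at hcon
    have h3 : ∀ a ∈ B, 0 ≤ w a := by
      intro a ha
      by_contra h
      have : a ∈ Q := Finset.mem_filter.2 ⟨ha, not_le.1 h⟩
      rw [hcon] at this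
      exact absurd this (Finset.notMem_empty a)
    obtain ⟨a, ha, hne⟩ := hw
    exact hne ((Finset.sum_eq_zero_iff_of_nonneg h3).1 h0 a ha)
  have hpos : (B \ Q).Nonempty := by
    by_contra hcon
    rw [Finset.not_nonempty_iff_eq_empty, Finset.sdiff_eq_empty_iff_subset] at hcon
    have h3 : ∀ a ∈ B, w a < 0 := fun a ha => (Finset.mem_filter.1 (hcon ha)).2
    obtain ⟨a, ha, hne⟩ := hw
    have := Finset.sum_neg h3 ⟨a, ha⟩
    linarith
  refine ⟨Q, Finset.filter_subset _ _, hneg, hpos, fun x => alternating _ hpos ?_⟩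
  by_contra hcon
  push Not at hcon
  set m := mx (fun a => term c a x) (B \ Q) with hm
  have hg := mx_isGreatest (fun a => term c a x) hpos
  have h3 : ∑ a ∈ B, w a * term c a x < ∑ a ∈ B, w a * m := by
    refine Finset.sum_lt_sum (fun a ha => ?_) ?_
    · by_cases haQ : a ∈ Q
      · have h4 := hcon a haQ
        have h5 := (Finset.mem_filter.1 haQ).2
        exact mul_le_mul_of_nonpos_left h4.le h5.le
      · have h4 : term c a x ≤ m := hg.2 ⟨a, Finset.mem_coe.2 (Finset.mem_sdiff.2 ⟨ha, haQ⟩), rfl⟩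
        have h5 : 0 ≤ w a := by
          by_contra h
          exact haQ (Finset.mem_filter.2 ⟨ha, not_le.1 h⟩)
        exact mul_le_mul_of_nonneg_left h4 h5
    · obtain ⟨q, hq⟩ := hneg
      refine ⟨q, (Finset.mem_filter.1 hq).1, ?_⟩
      exact mul_lt_mul_of_neg_left (hcon q hq) (Finset.mem_filter.1 hq).2
  rw [sum_term c B w h1 x, ← Finset.sum_mul, h0, zero_mul] at h3
  linarith

/-! ### Units -/

/-- Affinely independent exponents: all terms agree at some point. -/
theorem exists_common (c : (Fin n → ℕ) → ℝ) (B : Finset (Fin n → ℕ))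
    (hB : AffineIndependent ℝ (fun b : B => pt b.1)) :
    ∃ (x : Fin n → ℝ) (γ : ℝ), ∀ b ∈ B, term c b x = γ := by
  classical
  set f : B → Option (Fin n) → ℝ := fun b j => Option.elim j 1 (fun i => (b.1 i : ℝ)) with hf
  have hli : LinearIndependent ℝ f := by
    rw [linearIndependent_iff']
    intro s g hg i hi
    rw [affineIndependent_iff] at hB
    refine hB s g ?_ ?_ i hi
    · have h := congrFun hg none
      simpa [hf, Finset.sum_apply] using h
    · ext j
      have h := congrFun hg (some j)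
      simpa [hf, Finset.sum_apply, pt] using h
  rw [← span_flip_eq_top_iff_linearIndependent] at hli
  have hmem : (fun b : B => - c b.1) ∈ Submodule.span ℝ (Set.range (flip f)) := by
    rw [hli]
    exact Submodule.mem_top
  rw [Submodule.mem_span_range_iff_exists_fun] at hmem
  obtain ⟨y, hy⟩ := hmem
  refine ⟨fun i => y (some i), - y none, fun b hb => ?_⟩
  have h := congrFun hy ⟨b, hb⟩
  rw [Finset.sum_apply, Fintype.sum_option] at h
  simp only [Pi.smul_apply, smul_eq_mul, flip, hf, Option.elim, mul_one] at h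
  unfold term
  have h2 : ∑ i, (b i : ℝ) * y (some i) = ∑ i, y (some i) * (b i : ℝ) :=
    Finset.sum_congr rfl fun i _ => mul_comm _ _
  rw [h2]
  linarith

theorem unit_of_indep (c : (Fin n → ℕ) → ℝ) (B : Finset (Fin n → ℕ)) (hne : B.Nonempty)
    (hB : AffineIndependent ℝ (fun b : B => pt b.1)) :
    IsTropicalUnit (fun x => mx (fun a => term c a x) B) := by
  obtain ⟨x, γ, hx⟩ := exists_common c B hB
  refine ⟨B, c, fun x => mx_isGreatest _ hne, x, ?_⟩
  congr 2
  ext a
  simp only [Set.mem_ofPred_eq, Finset.mem_coe, and_iff_left_iff_imp]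
  intro ha
  obtain ⟨b, hb, he⟩ := (mx_isGreatest (fun a => term c a x) hne).1
  rw [hx a ha, ← he]
  exact (hx b hb).symm

/-! ### The group generated by the units -/

/-- `f` is a difference of sums of functions which satisfy `P`. -/
def Diff (P : ((Fin n → ℝ) → ℝ) → Prop) (f : (Fin n → ℝ) → ℝ) : Prop :=
  ∃ (p q : ℕ) (u : Fin p → (Fin n → ℝ) → ℝ) (v : Fin q → (Fin n → ℝ) → ℝ),
    (∀ i, P (u i)) ∧ (∀ j, P (v j)) ∧ ∀ x, f x + ∑ i, u i x = ∑ j, v j x

theorem Diff.of {P : ((Fin n → ℝ) → ℝ) → Prop} {f : (Fin n → ℝ) → ℝ} (h : P f) : Diff P f :=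
  ⟨0, 1, Fin.elim0, fun _ => f, fun i => i.elim0, fun _ => h, fun x => by simp⟩

theorem Diff.zero {P : ((Fin n → ℝ) → ℝ) → Prop} : Diff P (fun _ => 0) :=
  ⟨0, 0, Fin.elim0, Fin.elim0, fun i => i.elim0, fun i => i.elim0, fun x => by simp⟩

theorem Diff.neg {P : ((Fin n → ℝ) → ℝ) → Prop} {f : (Fin n → ℝ) → ℝ} (h : Diff P f) :
    Diff P (fun x => - f x) := by
  obtain ⟨p, q, u, v, hu, hv, h⟩ := h
  refine ⟨q, p, v, u, hv, hu, fun x => ?_⟩
  rw [← h x]
  ring

theorem Diff.add {P : ((Fin n → ℝ) → ℝ) → Prop} {f g : (Fin n → ℝ) → ℝ} (hf : Diff P f)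
    (hg : Diff P g) : Diff P (fun x => f x + g x) := by
  obtain ⟨p, q, u, v, hu, hv, h⟩ := hf
  obtain ⟨p', q', u', v', hu', hv', h'⟩ := hg
  refine ⟨p + p', q + q', Fin.append u u', Fin.append v v', ?_, ?_, fun x => ?_⟩
  · intro i
    refine Fin.addCases (fun i => ?_) (fun i => ?_) i
    · rw [Fin.append_left]; exact hu i
    · rw [Fin.append_right]; exact hu' i
  · intro i
    refine Fin.addCases (fun i => ?_) (fun i => ?_) i
    · rw [Fin.append_left]; exact hv i
    · rw [Fin.append_right]; exact hv' i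
  · rw [Fin.sum_univ_add, Fin.sum_univ_add]
    simp only [Fin.append_left, Fin.append_right]
    rw [← h x, ← h' x]
    ring

theorem Diff.sum {P : ((Fin n → ℝ) → ℝ) → Prop} {ι : Type} (s : Finset ι)
    (F : ι → (Fin n → ℝ) → ℝ) (h : ∀ i ∈ s, Diff P (F i)) : Diff P (fun x => ∑ i ∈ s, F i x) := by
  classical
  induction s using Finset.induction_on with
  | empty => simpa using Diff.zero
  | insert a s ha ih =>
    simp only [Finset.sum_insert ha]
    exact (h a (Finset.mem_insert_self a s)).add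
      (ih fun i hi => h i (Finset.mem_insert_of_mem hi))

theorem Diff.sign {P : ((Fin n → ℝ) → ℝ) → Prop} {f : (Fin n → ℝ) → ℝ} (hf : Diff P f) (m : ℕ) :
    Diff P (fun x => (-1) ^ m * f x) := by
  rcases neg_one_pow_eq_or ℝ m with h | h
  · simpa [h] using hf
  · simpa [h] using hf.neg

theorem diff_mx (c : (Fin n → ℕ) → ℝ) (A : Finset (Fin n → ℕ)) :
    ∀ B ⊆ A, B.Nonempty → Diff (fun u => IsTropicalUnit u ∧ ∃ C ⊆ A,
      AffineIndependent ℝ (fun b : C => pt b.1) ∧ IsMaxOf C c u)
      (fun x => mx (fun a => term c a x) B) := by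
  classical
  intro B
  induction B using Finset.strongInduction with
  | H B ih =>
    intro hBA hne
    by_cases hB : AffineIndependent ℝ (fun b : B => pt b.1)
    · exact Diff.of ⟨unit_of_indep c B hne hB, B, hBA, hB, fun x => mx_isGreatest _ hne⟩
    · -- a dependency
      obtain ⟨w, h0, h1, h2, hw⟩ : ∃ w : (Fin n → ℕ) → ℝ, ∑ a ∈ B, w a = 0 ∧
          (∀ i, ∑ a ∈ B, w a * (a i : ℝ) = 0) ∧ 0 ≤ ∑ a ∈ B, w a * c a ∧ ∃ a ∈ B, w a ≠ 0 := by
        obtain ⟨w, h0, h1, hw⟩ : ∃ w : (Fin n → ℕ) → ℝ, ∑ a ∈ B, w a = 0 ∧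
            (∀ i, ∑ a ∈ B, w a * (a i : ℝ) = 0) ∧ ∃ a ∈ B, w a ≠ 0 := by
          rw [affineIndependent_iff] at hB
          push Not at hB
          obtain ⟨s, g, hg0, hg1, i, hi, hgi⟩ := hB
          have hsum : ∀ F : (Fin n → ℕ) → ℝ, ∑ a ∈ B, (if h : a ∈ B then
              (if (⟨a, h⟩ : B) ∈ s then g ⟨a, h⟩ else 0) else 0) * F a = ∑ b ∈ s, g b * F b.1 := by
            intro F
            rw [← Finset.sum_coe_sort B]
            rw [← Finset.sum_filter_add_sum_filter_not (s := (Finset.univ : Finset B))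
              (p := fun b => b ∈ s)]
            have e1 : Finset.univ.filter (fun b : B => b ∈ s) = s := by
              ext b; simp
            rw [e1]
            have e2 : ∑ x ∈ Finset.univ.filter (fun b : B => b ∉ s), (if h : x.1 ∈ B then
              (if (⟨x.1, h⟩ : B) ∈ s then g ⟨x.1, h⟩ else 0) else 0) * F x.1 = 0 := by
              refine Finset.sum_eq_zero fun b hb => ?_
              rw [dif_pos b.2, if_neg (Finset.mem_filter.1 hb).2, zero_mul]
            rw [e2, add_zero]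
            refine Finset.sum_congr rfl fun b hb => ?_
            rw [dif_pos b.2, if_pos hb]
          refine ⟨fun a => if h : a ∈ B then (if (⟨a, h⟩ : B) ∈ s then g ⟨a, h⟩ else 0) else 0,
            ?_, ?_, ?_⟩
          · have h := hsum (fun _ => 1)
            simp only [mul_one] at h
            rw [h]
            exact hg0
          · intro j
            rw [hsum (fun a => (a j : ℝ))]
            have h := congrFun hg1 j
            simpa [Finset.sum_apply, pt] using h
          · refine ⟨i.1, i.2, ?_⟩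
            beta_reduce
            rw [dif_pos i.2, if_pos hi]
            exact hgi
        rcases le_total 0 (∑ a ∈ B, w a * c a) with h | h
        · exact ⟨w, h0, h1, h, hw⟩
        · refine ⟨fun a => - w a, ?_, fun i => ?_, ?_, ?_⟩
          · rw [Finset.sum_neg_distrib, h0, neg_zero]
          · simp only [neg_mul, Finset.sum_neg_distrib, h1 i, neg_zero]
          · simp only [neg_mul, Finset.sum_neg_distrib]
            linarith
          · obtain ⟨a, ha, h⟩ := hw
            exact ⟨a, ha, neg_ne_zero.2 h⟩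
      obtain ⟨Q, hQB, hQ, hBQ, hsum⟩ := key c B w h0 h1 h2 hw
      -- solve for the term of the empty set
      have hsolve : (fun x => mx (fun a => term c a x) B) = fun x =>
          ∑ T ∈ Q.powerset.erase ∅, (-1 : ℝ) ^ (T.card + 1) * mx (fun a => term c a x) (B \ T) := by
        funext x
        have h := hsum x
        rw [← Finset.add_sum_erase _ _ (Finset.empty_mem_powerset Q)] at h
        simp only [Finset.card_empty, pow_zero, one_mul, Finset.sdiff_empty] at h
        have h' : ∑ T ∈ Q.powerset.erase ∅, (-1 : ℝ) ^ (T.card + 1) *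
            mx (fun a => term c a x) (B \ T) = - ∑ T ∈ Q.powerset.erase ∅, (-1 : ℝ) ^ T.card *
            mx (fun a => term c a x) (B \ T) := by
          rw [← Finset.sum_neg_distrib]
          exact Finset.sum_congr rfl fun T _ => by ring
        rw [h']
        linarith
      rw [hsolve]
      refine Diff.sum _ _ fun T hT => Diff.sign ?_ _
      rw [Finset.mem_erase, Finset.mem_powerset] at hT
      have hTne : T.Nonempty := Finset.nonempty_iff_ne_empty.2 hT.1
      refine ih (B \ T) ?_ (Finset.sdiff_subset.trans hBA) ?_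
      · refine Finset.ssubset_iff_subset_ne.2 ⟨Finset.sdiff_subset, fun h => ?_⟩
        obtain ⟨t, ht⟩ := hTne
        have h3 : t ∈ B \ T := by
          rw [h]
          exact hQB (hT.2 ht)
        exact (Finset.mem_sdiff.1 h3).2 ht
      · exact hBQ.mono (Finset.sdiff_subset_sdiff (Finset.Subset.refl B) hT.2)

/-- Every tropical polynomial `f`, in any number of variables, is rationally factorizable. Moreover,
if `f = max_{a ∈ A} (c_a + a · x)`, then there are units `u_i` and `v_j`, each of them the maximum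
of terms of `f` with affinely independent exponents, such that `f + ∑ u_i = ∑ v_j`. -/
theorem result (n : ℕ) (f : (Fin n → ℝ) → ℝ) :
    (IsTropicalPolynomial f → IsRationallyFactorizable f) ∧
    ∀ (A : Finset (Fin n → ℕ)) (c : (Fin n → ℕ) → ℝ), IsMaxOf A c f →
      ∃ (p q : ℕ) (u : Fin p → (Fin n → ℝ) → ℝ) (v : Fin q → (Fin n → ℝ) → ℝ),
        (∀ i, IsTropicalUnit (u i) ∧ ∃ C ⊆ A,
          AffineIndependent ℝ (fun a : C => pt a.1) ∧ IsMaxOf C c (u i)) ∧
        (∀ j, IsTropicalUnit (v j) ∧ ∃ C ⊆ A,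
          AffineIndependent ℝ (fun a : C => pt a.1) ∧ IsMaxOf C c (v j)) ∧
        ∀ x, f x + ∑ i, u i x = ∑ j, v j x := by
  have key : ∀ (A : Finset (Fin n → ℕ)) (c : (Fin n → ℕ) → ℝ), IsMaxOf A c f →
      ∃ (p q : ℕ) (u : Fin p → (Fin n → ℝ) → ℝ) (v : Fin q → (Fin n → ℝ) → ℝ),
        (∀ i, IsTropicalUnit (u i) ∧ ∃ C ⊆ A,
          AffineIndependent ℝ (fun a : C => pt a.1) ∧ IsMaxOf C c (u i)) ∧
        (∀ j, IsTropicalUnit (v j) ∧ ∃ C ⊆ A,
          AffineIndependent ℝ (fun a : C => pt a.1) ∧ IsMaxOf C c (v j)) ∧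
        ∀ x, f x + ∑ i, u i x = ∑ j, v j x := by
    intro A c hf
    have hA : A.Nonempty := by
      obtain ⟨a, ha, _⟩ := (hf 0).1
      exact ⟨a, ha⟩
    have he : f = fun x => mx (fun a => term c a x) A := by
      funext x
      exact (hf x).unique (mx_isGreatest _ hA)
    rw [he]
    exact diff_mx c A A (Finset.Subset.refl A) hA
  refine ⟨?_, key⟩
  rintro ⟨A, c, hf⟩
  obtain ⟨p, q, u, v, hu, hv, h⟩ := key A c hf
  exact ⟨p, q, u, v, fun i => (hu i).1, fun j => (hv j).1, h⟩

end Pool.Agent.Zk80.Keep.RationalFact
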